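import Pool.Agent.Helper87.EX.Defs

/-! Mirror lemma for `SL_2(ℂ)`: three points of the hyperbolic space lie in a plane. -/

set_option autoImplicit false

namespace Pool.Agent.Helper22.EXP

open Complex Matrix
open Pool.Agent.Helper87.EX (cj)

/-- hermitian matrices from four real numbers -/
noncomputable def Hm (v : Fin 4 → ℝ) : Matrix (Fin 2) (Fin 2) ℂ :=
  !![(v 0 : ℂ), (v 1 : ℂ) + (v 2 : ℂ) * I; (v 1 : ℂ) - (v 2 : ℂ) * I, (v 3 : ℂ)]

lemma Hm_herm (v : Fin 4 → ℝ) : (Hm v)ᴴ = Hm v := by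
  ext i j
  fin_cases i <;> fin_cases j <;> simp [Hm, Complex.ext_iff]

lemma herm_det {M : Matrix (Fin 2) (Fin 2) ℂ} (hM : Mᴴ = M) (ht : M.trace = 0) (h0 : M ≠ 0) :
    ∃ r : ℝ, 0 < r ∧ M.det = -(r : ℂ) := by
  have h00 : (starRingEnd ℂ) (M 0 0) = M 0 0 := by
    have := congrFun (congrFun hM 0) 0
    simpa using this
  have h01 : (starRingEnd ℂ) (M 0 1) = M 1 0 := by
    have := congrFun (congrFun hM 1) 0
    simpa using this
  have h11 : M 1 1 = - M 0 0 := by
    rw [Matrix.trace_fin_two] at ht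
    linear_combination ht
  have hre : ((M 0 0).re : ℂ) = M 0 0 := Complex.conj_eq_iff_re.mp h00
  refine ⟨(M 0 0).re ^ 2 + Complex.normSq (M 0 1), ?_, ?_⟩
  · by_contra hneg
    have h1 := sq_nonneg (M 0 0).re
    have h2 := Complex.normSq_nonneg (M 0 1)
    have h3 : (M 0 0).re = 0 := by nlinarith
    have h4 : Complex.normSq (M 0 1) = 0 := by nlinarith
    have h5 : M 0 1 = 0 := Complex.normSq_eq_zero.mp h4
    have h6 : M 0 0 = 0 := by rw [← hre, h3]; simp
    have h7 : M 1 0 = 0 := by rw [← h01, h5]; simp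
    have h8 : M 1 1 = 0 := by rw [h11, h6]; simp
    apply h0
    ext i j
    fin_cases i <;> fin_cases j
    · exact h6
    · exact h5
    · exact h7
    · exact h8
  · rw [Matrix.det_fin_two, h11, ← h01, Complex.mul_conj]
    push_cast
    linear_combination ((M 0 0) + ((M 0 0).re : ℂ)) * hre

lemma sq_traceless {M : Matrix (Fin 2) (Fin 2) ℂ} (ht : M.trace = 0) (hd : M.det = -1) :
    M * M = 1 := by
  rw [Matrix.trace_fin_two] at ht
  rw [Matrix.det_fin_two] at hd
  ext i j
  fin_cases i <;> fin_cases j <;> simp [Matrix.mul_apply, Fin.sum_univ_two]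
  · linear_combination (M 0 0) * ht - hd
  · linear_combination (M 0 1) * ht
  · linear_combination (M 1 0) * ht
  · linear_combination (M 1 1) * ht - hd

/-- the second Pauli matrix -/
noncomputable def E2 : Matrix (Fin 2) (Fin 2) ℂ := !![0, -I; I, 0]

lemma E2_herm : E2ᴴ = E2 := by
  ext i j
  fin_cases i <;> fin_cases j <;> simp [E2]

lemma E2_det : E2.det = -1 := by
  simp [E2, Matrix.det_fin_two]

lemma E2_conj (x : Matrix (Fin 2) (Fin 2) ℂ) : E2 * x.adjugate * E2 = xᵀ := by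
  rw [Matrix.adjugate_fin_two]
  ext i j
  fin_cases i <;> fin_cases j <;>
    simp [E2, Matrix.mul_apply, Fin.sum_univ_two, Matrix.transpose_apply] <;>
    ring_nf <;> simp

lemma adj_adj (x : Matrix (Fin 2) (Fin 2) ℂ) : x.adjugate.adjugate = x := by
  rw [Matrix.adjugate_fin_two, Matrix.adjugate_fin_two]
  ext i j
  fin_cases i <;> fin_cases j <;> simp

/-- the mirror lemma -/
theorem mirror (s : Fin 3 → SpecialLinearGroup (Fin 2) ℂ) :
    ∃ (g : SpecialLinearGroup (Fin 2) ℂ) (k : Fin 3 → SpecialLinearGroup (Fin 2) ℂ),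
      (∀ j, (k j : Matrix (Fin 2) (Fin 2) ℂ) * (k j : Matrix (Fin 2) (Fin 2) ℂ)ᴴ = 1) ∧
      ∀ j, cj (s j) = g * s j * k j := by
  classical
  -- the hermitian matrices x_j
  set x : Fin 3 → Matrix (Fin 2) (Fin 2) ℂ :=
    fun j => (s j : Matrix (Fin 2) (Fin 2) ℂ) * (s j : Matrix (Fin 2) (Fin 2) ℂ)ᴴ with hx
  have hsd : ∀ j, (s j : Matrix (Fin 2) (Fin 2) ℂ).det = 1 := fun j => (s j).det_coe
  have hxh : ∀ j, (x j)ᴴ = x j := fun j => by
    rw [hx]; simp only [conjTranspose_mul, conjTranspose_conjTranspose]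
  have hxd : ∀ j, (x j).det = 1 := fun j => by
    rw [hx]; simp only [det_mul, det_conjTranspose, hsd, star_one, mul_one]
  have hadjh : ∀ j, ((x j).adjugate)ᴴ = (x j).adjugate := fun j => by
    rw [adjugate_conjTranspose, hxh j]
  -- the linear map
  obtain ⟨v, hv0, hv⟩ : ∃ v : Fin 4 → ℝ, v ≠ 0 ∧ ∀ j, (Hm v * (x j).adjugate).trace = 0 := by
    let L : (Fin 4 → ℝ) →ₗ[ℝ] (Fin 3 → ℝ) :=
      { toFun := fun v j => ((Hm v * (x j).adjugate).trace).re
        map_add' := by
          intro v w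
          ext j
          have : Hm (v + w) = Hm v + Hm w := by
            ext i j
            fin_cases i <;> fin_cases j <;> simp [Hm] <;> ring
          simp only [this, Matrix.add_mul, Matrix.trace_add, Complex.add_re, Pi.add_apply]
        map_smul' := by
          intro r v
          ext j
          have : Hm (r • v) = (r : ℂ) • Hm v := by
            ext i j
            fin_cases i <;> fin_cases j <;> simp [Hm] <;> ring
          simp only [this, Matrix.smul_mul, Matrix.trace_smul, smul_eq_mul, Complex.re_ofReal_mul,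
            Pi.smul_apply, RingHom.id_apply] }
    have hk : LinearMap.ker L ≠ ⊥ := LinearMap.ker_ne_bot_of_finrank_lt (by simp)
    obtain ⟨v, hvk, hv0⟩ := (Submodule.ne_bot_iff _).mp hk
    refine ⟨v, hv0, fun j => ?_⟩
    have h1 : ((Hm v * (x j).adjugate).trace).re = 0 := congrFun (LinearMap.mem_ker.mp hvk) j
    have h2 : (starRingEnd ℂ) ((Hm v * (x j).adjugate).trace) = (Hm v * (x j).adjugate).trace := by
      have h3 := Matrix.trace_conjTranspose (Hm v * (x j).adjugate)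
      rw [conjTranspose_mul, Hm_herm, hadjh, Matrix.trace_mul_comm] at h3
      exact h3.symm
    rw [← Complex.conj_eq_iff_re.mp h2, h1]; simp
  have hN0 : Hm v ≠ 0 := by
    intro h
    apply hv0
    have e0 : (v 0 : ℂ) = 0 := congrFun (congrFun h 0) 0
    have e3 : (v 3 : ℂ) = 0 := congrFun (congrFun h 1) 1
    have e1 : (v 1 : ℂ) + (v 2 : ℂ) * I = 0 := congrFun (congrFun h 0) 1
    have e10 := congrArg Complex.re e1
    have e11 := congrArg Complex.im e1
    simp at e10 e11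
    ext i
    fin_cases i
    · exact_mod_cast e0
    · exact e10
    · exact e11
    · exact_mod_cast e3
  -- the determinant of N is negative
  obtain ⟨r, hr, hdet⟩ : ∃ r : ℝ, 0 < r ∧ (Hm v).det = -(r : ℂ) := by
    set S : Matrix (Fin 2) (Fin 2) ℂ := (s 0 : Matrix (Fin 2) (Fin 2) ℂ) with hS
    have hSd : S.det = 1 := hsd 0
    have h1 : S * S.adjugate = 1 := by rw [Matrix.mul_adjugate, hSd, one_smul]
    have h1' : (S.adjugate)ᴴ * Sᴴ = 1 := by rw [← conjTranspose_mul, h1, conjTranspose_one]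
    set M := S.adjugate * Hm v * (S.adjugate)ᴴ with hM
    have hMh : Mᴴ = M := by
      rw [hM]; simp only [conjTranspose_mul, conjTranspose_conjTranspose, Hm_herm, Matrix.mul_assoc]
    have hMt : M.trace = 0 := by
      rw [hM, Matrix.trace_mul_comm, ← Matrix.mul_assoc, Matrix.trace_mul_comm,
        adjugate_conjTranspose, ← adjugate_mul_distrib]
      exact hv 0
    have hback : S * M * Sᴴ = Hm v := by
      rw [hM]
      calc S * (S.adjugate * Hm v * (S.adjugate)ᴴ) * Sᴴ
          = (S * S.adjugate) * Hm v * ((S.adjugate)ᴴ * Sᴴ) := by simp only [Matrix.mul_assoc]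
        _ = Hm v := by rw [h1, h1']; simp
    have hM0 : M ≠ 0 := by
      intro h
      apply hN0
      rw [← hback, h]; simp
    obtain ⟨r, hr, hd⟩ := herm_det hMh hMt hM0
    refine ⟨r, hr, ?_⟩
    rw [← hback, det_mul, det_mul, det_conjTranspose, hSd, hd]; simp
  -- normalisation
  set c : ℝ := (Real.sqrt r)⁻¹ with hc
  have hc2 : c ^ 2 * r = 1 := by
    rw [hc, inv_pow, Real.sq_sqrt hr.le]
    exact inv_mul_cancel₀ hr.ne'
  set N : Matrix (Fin 2) (Fin 2) ℂ := (c : ℂ) • Hm v with hN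
  have hNh : Nᴴ = N := by
    rw [hN, conjTranspose_smul, Hm_herm]; simp
  have hNd : N.det = -1 := by
    rw [hN, det_smul, hdet, Fintype.card_fin]
    have : ((c ^ 2 * r : ℝ) : ℂ) = 1 := by rw [hc2]; simp
    push_cast at this
    linear_combination -this
  have hNt : ∀ j, (N * (x j).adjugate).trace = 0 := fun j => by
    rw [hN, Matrix.smul_mul, Matrix.trace_smul, hv j, smul_zero]
  have hNa : (N.adjugate)ᴴ = N.adjugate := by rw [adjugate_conjTranspose, hNh]
  have hkey : ∀ j, N.adjugate * x j * N.adjugate = (x j).adjugate := fun j => by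
    have h1 : (x j * N.adjugate) * (x j * N.adjugate) = 1 := by
      have h2 : (N * (x j).adjugate).adjugate = x j * N.adjugate := by
        rw [adjugate_mul_distrib, adj_adj]
      rw [← h2]
      apply sq_traceless
      · have h3 := hNt j
        rw [Matrix.adjugate_fin_two, Matrix.trace_fin_two]
        rw [Matrix.trace_fin_two] at h3
        simp only [of_apply, cons_val', cons_val_zero, cons_val_one, cons_val_fin_one]
        linear_combination h3
      · rw [Matrix.det_adjugate, det_mul, Matrix.det_adjugate, hNd, hxd]; simp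
    have h4 : (x j).adjugate * x j = 1 := by rw [Matrix.adjugate_mul, hxd, one_smul]
    calc N.adjugate * x j * N.adjugate
        = ((x j).adjugate * x j) * (N.adjugate * x j * N.adjugate) := by rw [h4, Matrix.one_mul]
      _ = (x j).adjugate * ((x j * N.adjugate) * (x j * N.adjugate)) := by
          simp only [Matrix.mul_assoc]
      _ = (x j).adjugate := by rw [h1, Matrix.mul_one]
  have hgd : (E2 * N.adjugate).det = 1 := by
    rw [det_mul, E2_det, Matrix.det_adjugate, hNd]; simp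
  set g : SpecialLinearGroup (Fin 2) ℂ := ⟨E2 * N.adjugate, hgd⟩ with hg
  have hgx : ∀ j, (g : Matrix (Fin 2) (Fin 2) ℂ) * x j * (g : Matrix (Fin 2) (Fin 2) ℂ)ᴴ
      = (cj (s j) : Matrix (Fin 2) (Fin 2) ℂ) * (cj (s j) : Matrix (Fin 2) (Fin 2) ℂ)ᴴ := fun j => by
    have h1 : (g : Matrix (Fin 2) (Fin 2) ℂ) = E2 * N.adjugate := rfl
    rw [h1, conjTranspose_mul, E2_herm, hNa]
    have h2 : E2 * N.adjugate * x j * (N.adjugate * E2) = E2 * (N.adjugate * x j * N.adjugate) * E2 := by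
      simp only [Matrix.mul_assoc]
    rw [h2, hkey j, E2_conj]
    have h3 : (x j)ᵀ = (x j).map (starRingEnd ℂ) := by
      ext a b
      have h4 := congrFun (congrFun (hxh j) b) a
      rw [Matrix.transpose_apply, ← h4]
      rfl
    rw [h3, hx]
    have h5 : (cj (s j) : Matrix (Fin 2) (Fin 2) ℂ) =
        (s j : Matrix (Fin 2) (Fin 2) ℂ).map (starRingEnd ℂ) := rfl
    rw [h5, Matrix.map_mul]
    congr 1
  refine ⟨g, fun j => (s j)⁻¹ * g⁻¹ * cj (s j), fun j => ?_, fun j => ?_⟩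
  · have e1' : ((g⁻¹ : SpecialLinearGroup (Fin 2) ℂ) : Matrix (Fin 2) (Fin 2) ℂ) *
        (g : Matrix (Fin 2) (Fin 2) ℂ) = 1 := congrArg Subtype.val (inv_mul_cancel g)
    have e2 : (((s j)⁻¹ : SpecialLinearGroup (Fin 2) ℂ) : Matrix (Fin 2) (Fin 2) ℂ) *
        (s j : Matrix (Fin 2) (Fin 2) ℂ) = 1 := congrArg Subtype.val (inv_mul_cancel (s j))
    have e3 : (((s j)⁻¹ * g⁻¹ * cj (s j) : SpecialLinearGroup (Fin 2) ℂ) :
        Matrix (Fin 2) (Fin 2) ℂ) = (((s j)⁻¹ : SpecialLinearGroup (Fin 2) ℂ) :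
        Matrix (Fin 2) (Fin 2) ℂ) * ((g⁻¹ : SpecialLinearGroup (Fin 2) ℂ) :
        Matrix (Fin 2) (Fin 2) ℂ) * (cj (s j) : Matrix (Fin 2) (Fin 2) ℂ) := rfl
    rw [e3]
    simp only [conjTranspose_mul]
    set Si := (((s j)⁻¹ : SpecialLinearGroup (Fin 2) ℂ) : Matrix (Fin 2) (Fin 2) ℂ) with hSi
    set gi := ((g⁻¹ : SpecialLinearGroup (Fin 2) ℂ) : Matrix (Fin 2) (Fin 2) ℂ) with hgi
    calc Si * gi * (cj (s j) : Matrix (Fin 2) (Fin 2) ℂ) *
          ((cj (s j) : Matrix (Fin 2) (Fin 2) ℂ)ᴴ * (giᴴ * Siᴴ))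
        = Si * gi * ((cj (s j) : Matrix (Fin 2) (Fin 2) ℂ) *
          (cj (s j) : Matrix (Fin 2) (Fin 2) ℂ)ᴴ) * (giᴴ * Siᴴ) := by
          simp only [Matrix.mul_assoc]
      _ = Si * gi * ((g : Matrix (Fin 2) (Fin 2) ℂ) * x j * (g : Matrix (Fin 2) (Fin 2) ℂ)ᴴ) *
          (giᴴ * Siᴴ) := by rw [hgx j]
      _ = (Si * (gi * (g : Matrix (Fin 2) (Fin 2) ℂ)) * (s j : Matrix (Fin 2) (Fin 2) ℂ)) *
          ((Si * (gi * (g : Matrix (Fin 2) (Fin 2) ℂ)) * (s j : Matrix (Fin 2) (Fin 2) ℂ)))ᴴ := by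
          simp only [hx, conjTranspose_mul, Matrix.mul_assoc]
      _ = 1 := by rw [e1', Matrix.mul_one, e2]; simp
  · group

end Pool.Agent.Helper22.EXP
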