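import Pool.Agent.Helper22.EXP.Mirror

/-! Prism identity: the mirror-odd part of the prism is additive. -/

set_option autoImplicit false

namespace Pool.Agent.Helper22.EXP

open Complex Matrix
open Pool.Agent.Helper87.EX

section
variable {H : Type*} [Group H]

/-- the secondary prism -/
def QQ (C : H → H → H → H → H → ℝ) (a b x y z : H) : ℝ :=
  C x (a * x) (b * x) (b * y) (b * z)
  - C x (a * x) (a * y) (b * y) (b * z)
  + C x (a * x) (a * y) (a * z) (b * z)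
  + C x y (a * y) (b * y) (b * z)
  - C x y (a * y) (a * z) (b * z)
  + C x y z (a * z) (b * z)

/-- the prism -/
def PP (C : H → H → H → H → H → ℝ) (a x y z w : H) : ℝ :=
  C x (a * x) (a * y) (a * z) (a * w)
  - C x y (a * y) (a * z) (a * w)
  + C x y z (a * z) (a * w)
  - C x y z w (a * w)

/-- the cocycle relation for functions of five variables -/
def Coc (C : H → H → H → H → H → ℝ) : Prop :=
  ∀ x0 x1 x2 x3 x4 x5, C x1 x2 x3 x4 x5 - C x0 x2 x3 x4 x5 + C x0 x1 x3 x4 x5 - C x0 x1 x2 x4 x5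
    + C x0 x1 x2 x3 x5 - C x0 x1 x2 x3 x4 = 0

lemma prism_add {C : H → H → H → H → H → ℝ} (hC : Coc C)
    (hL : ∀ g x0 x1 x2 x3 x4, C (g * x0) (g * x1) (g * x2) (g * x3) (g * x4) = C x0 x1 x2 x3 x4)
    (a a' x y z w : H) :
    PP C (a * a') x y z w = PP C a x y z w + PP C a' x y z w
      + (QQ C a (a * a') y z w - QQ C a (a * a') x z w + QQ C a (a * a') x y w
        - QQ C a (a * a') x y z) := by
  have e0 := hL a x (a' * x) (a' * y) (a' * z) (a' * w)
  have e1 := hL a x y (a' * y) (a' * z) (a' * w)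
  have e2 := hL a x y z (a' * z) (a' * w)
  have e3 := hL a x y z w (a' * w)
  simp only [← mul_assoc] at e0 e1 e2 e3
  unfold PP QQ
  rw [← e0, ← e1, ← e2, ← e3]
  generalize hb : a * a' = b
  have h00 := hC x (a * x) (b * x) (b * y) (b * z) (b * w)
  have h01 := hC x (a * x) (a * y) (b * y) (b * z) (b * w)
  have h02 := hC x (a * x) (a * y) (a * z) (b * z) (b * w)
  have h03 := hC x (a * x) (a * y) (a * z) (a * w) (b * w)
  have h11 := hC x y (a * y) (b * y) (b * z) (b * w)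
  have h12 := hC x y (a * y) (a * z) (b * z) (b * w)
  have h13 := hC x y (a * y) (a * z) (a * w) (b * w)
  have h22 := hC x y z (a * z) (b * z) (b * w)
  have h23 := hC x y z (a * z) (a * w) (b * w)
  have h33 := hC x y z w (a * w) (b * w)
  linear_combination -h00 + h01 - h02 + h03 - h11 + h12 - h13 - h22 + h23 - h33

/-- a cochain as a function of five variables -/
def CC (c : (Fin 5 → H) → ℝ) (x0 x1 x2 x3 x4 : H) : ℝ := c ![x0, x1, x2, x3, x4]

lemma coc_CC {c : (Fin 5 → H) → ℝ} (hd : ∀ x, dd c x = 0) : Coc (CC c) := by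
  intro x0 x1 x2 x3 x4 x5
  have h := hd ![x0, x1, x2, x3, x4, x5]
  unfold dd at h
  rw [Fin.sum_univ_six] at h
  have e0 : (fun j => (![x0, x1, x2, x3, x4, x5] : Fin 6 → H) (Fin.succAbove 0 j))
      = ![x1, x2, x3, x4, x5] := by funext j; fin_cases j <;> rfl
  have e1 : (fun j => (![x0, x1, x2, x3, x4, x5] : Fin 6 → H) (Fin.succAbove 1 j))
      = ![x0, x2, x3, x4, x5] := by funext j; fin_cases j <;> rfl
  have e2 : (fun j => (![x0, x1, x2, x3, x4, x5] : Fin 6 → H) (Fin.succAbove 2 j))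
      = ![x0, x1, x3, x4, x5] := by funext j; fin_cases j <;> rfl
  have e3 : (fun j => (![x0, x1, x2, x3, x4, x5] : Fin 6 → H) (Fin.succAbove 3 j))
      = ![x0, x1, x2, x4, x5] := by funext j; fin_cases j <;> rfl
  have e4 : (fun j => (![x0, x1, x2, x3, x4, x5] : Fin 6 → H) (Fin.succAbove 4 j))
      = ![x0, x1, x2, x3, x5] := by funext j; fin_cases j <;> rfl
  have e5 : (fun j => (![x0, x1, x2, x3, x4, x5] : Fin 6 → H) (Fin.succAbove 5 j))
      = ![x0, x1, x2, x3, x4] := by funext j; fin_cases j <;> rfl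
  rw [e0, e1, e2, e3, e4, e5] at h
  have n0 : ((0 : Fin 6) : ℕ) = 0 := rfl
  have n1 : ((1 : Fin 6) : ℕ) = 1 := rfl
  have n2 : ((2 : Fin 6) : ℕ) = 2 := rfl
  have n3 : ((3 : Fin 6) : ℕ) = 3 := rfl
  have n4 : ((4 : Fin 6) : ℕ) = 4 := rfl
  have n5 : ((5 : Fin 6) : ℕ) = 5 := rfl
  rw [n0, n1, n2, n3, n4, n5] at h
  unfold CC
  linear_combination h

lemma Pr_eq (c : (Fin 5 → H) → ℝ) (a : H) (s : Fin 4 → H) :
    Pr c a s = PP (CC c) a (s 0) (s 1) (s 2) (s 3) := by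
  unfold Pr PP CC
  rw [Fin.sum_univ_four]
  have e0 : pri a s 0 = ![s 0, a * s 0, a * s 1, a * s 2, a * s 3] := by
    funext j; fin_cases j <;> rfl
  have e1 : pri a s 1 = ![s 0, s 1, a * s 1, a * s 2, a * s 3] := by
    funext j; fin_cases j <;> rfl
  have e2 : pri a s 2 = ![s 0, s 1, s 2, a * s 2, a * s 3] := by
    funext j; fin_cases j <;> rfl
  have e3 : pri a s 3 = ![s 0, s 1, s 2, s 3, a * s 3] := by
    funext j; fin_cases j <;> rfl
  rw [e0, e1, e2, e3]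
  have n0 : ((0 : Fin 4) : ℕ) = 0 := rfl
  have n1 : ((1 : Fin 4) : ℕ) = 1 := rfl
  have n2 : ((2 : Fin 4) : ℕ) = 2 := rfl
  have n3 : ((3 : Fin 4) : ℕ) = 3 := rfl
  rw [n0, n1, n2, n3]
  ring

end

/-- `emb` is multiplicative -/
lemma emb_mul (s t : SpecialLinearGroup (Fin 2) ℂ) : emb (s * t) = emb s * emb t := by
  apply Subtype.ext
  have h : ∀ i j, (s * t) i j = s i 0 * t 0 j + s i 1 * t 1 j := by
    intro i j
    show ((s : Matrix (Fin 2) (Fin 2) ℂ) * (t : Matrix (Fin 2) (Fin 2) ℂ)) i j = _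
    rw [Matrix.mul_apply, Fin.sum_univ_two]
  have h2 : ((emb s * emb t : G3) : Matrix (Fin 3) (Fin 3) ℂ)
      = (emb s : Matrix (Fin 3) (Fin 3) ℂ) * (emb t : Matrix (Fin 3) (Fin 3) ℂ) := rfl
  show (emb (s * t) : Matrix (Fin 3) (Fin 3) ℂ) = ((emb s * emb t : G3) : Matrix (Fin 3) (Fin 3) ℂ)
  rw [h2]
  ext i j
  fin_cases i <;> fin_cases j <;>
    simp [emb, Matrix.mul_apply, Fin.sum_univ_three, h]

lemma emb_isU {k : SpecialLinearGroup (Fin 2) ℂ}
    (hk : (k : Matrix (Fin 2) (Fin 2) ℂ) * (k : Matrix (Fin 2) (Fin 2) ℂ)ᴴ = 1) : IsU (emb k) := by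
  have h : ∀ i j, k i 0 * (starRingEnd ℂ) (k j 0) + k i 1 * (starRingEnd ℂ) (k j 1)
      = (1 : Matrix (Fin 2) (Fin 2) ℂ) i j := by
    intro i j
    rw [← hk, Matrix.mul_apply, Fin.sum_univ_two]
    rfl
  have h00 := h 0 0
  have h01 := h 0 1
  have h10 := h 1 0
  have h11 := h 1 1
  simp at h00 h01 h10 h11
  unfold IsU
  ext i j
  fin_cases i <;> fin_cases j <;>
    simp [emb, Matrix.mul_apply, Fin.sum_univ_three, h00, h01, h10, h11]

/-- `a(t)` commutes with the block -/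
lemma aT_comm (t : ℝ) (s : SpecialLinearGroup (Fin 2) ℂ) : aT t * emb s = emb s * aT t := by
  apply Subtype.ext
  show (aT t : Matrix (Fin 3) (Fin 3) ℂ) * (emb s : Matrix (Fin 3) (Fin 3) ℂ)
    = (emb s : Matrix (Fin 3) (Fin 3) ℂ) * (aT t : Matrix (Fin 3) (Fin 3) ℂ)
  ext i j
  fin_cases i <;> fin_cases j <;>
    simp [emb, aT, Matrix.mul_apply, Fin.sum_univ_three, mul_comm]

lemma aT_add (t t' : ℝ) : aT (t + t') = aT t * aT t' := by
  apply Subtype.ext
  show (aT (t + t') : Matrix (Fin 3) (Fin 3) ℂ)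
    = (aT t : Matrix (Fin 3) (Fin 3) ℂ) * (aT t' : Matrix (Fin 3) (Fin 3) ℂ)
  have e1 : Complex.exp (2 * ((t : ℂ) + (t' : ℂ))) = Complex.exp (2 * t) * Complex.exp (2 * t') := by
    rw [← Complex.exp_add]; congr 1; ring
  have e2 : Complex.exp (-(t' : ℂ) + -(t : ℂ)) = Complex.exp (-t) * Complex.exp (-t') := by
    rw [← Complex.exp_add]; congr 1; ring
  ext i j
  fin_cases i <;> fin_cases j <;>
    simp [aT, Matrix.mul_apply, Fin.sum_univ_three, e1, e2]

/-- the secondary prism is invariant under the mirror -/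
lemma QQ_cj {c : (Fin 5 → G3) → ℝ} (hL : LInv c)
    (hU : ∀ x u : Fin 5 → G3, (∀ i, IsU (u i)) → c (fun i => x i * u i) = c x)
    (t r : ℝ) (x y z : SpecialLinearGroup (Fin 2) ℂ) :
    QQ (CC c) (aT t) (aT r) (emb (cj x)) (emb (cj y)) (emb (cj z))
      = QQ (CC c) (aT t) (aT r) (emb x) (emb y) (emb z) := by
  obtain ⟨g, k, hk, hg⟩ := mirror ![x, y, z]
  have hx : cj x = g * x * k 0 := hg 0
  have hy : cj y = g * y * k 1 := hg 1
  have hz : cj z = g * z * k 2 := hg 2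
  have u0 : IsU (emb (k 0)) := emb_isU (hk 0)
  have u1 : IsU (emb (k 1)) := emb_isU (hk 1)
  have u2 : IsU (emb (k 2)) := emb_isU (hk 2)
  have key : ∀ (x0 x1 x2 x3 x4 v0 v1 v2 v3 v4 : G3), IsU v0 → IsU v1 → IsU v2 → IsU v3 → IsU v4 →
      CC c (emb g * (x0 * v0)) (emb g * (x1 * v1)) (emb g * (x2 * v2)) (emb g * (x3 * v3))
        (emb g * (x4 * v4)) = CC c x0 x1 x2 x3 x4 := by
    intro x0 x1 x2 x3 x4 v0 v1 v2 v3 v4 w0 w1 w2 w3 w4
    unfold CC
    have h1 := hL (emb g) ![x0 * v0, x1 * v1, x2 * v2, x3 * v3, x4 * v4]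
    have h2 := hU ![x0, x1, x2, x3, x4] ![v0, v1, v2, v3, v4]
      (by intro i; fin_cases i <;> assumption)
    have e1 : (fun i => emb g * (![x0 * v0, x1 * v1, x2 * v2, x3 * v3, x4 * v4] : Fin 5 → G3) i)
        = ![emb g * (x0 * v0), emb g * (x1 * v1), emb g * (x2 * v2), emb g * (x3 * v3),
          emb g * (x4 * v4)] := by
      funext i; fin_cases i <;> rfl
    have e2 : (fun i => (![x0, x1, x2, x3, x4] : Fin 5 → G3) i * (![v0, v1, v2, v3, v4] : Fin 5 → G3) i)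
        = ![x0 * v0, x1 * v1, x2 * v2, x3 * v3, x4 * v4] := by
      funext i; fin_cases i <;> rfl
    rw [e1] at h1
    rw [e2] at h2
    rw [h1, h2]
  have f0 : ∀ s kk : SpecialLinearGroup (Fin 2) ℂ,
      emb (g * s * kk) = emb g * (emb s * emb kk) := fun s kk => by
    rw [emb_mul, emb_mul, mul_assoc]
  have f1 : ∀ (p : ℝ) (s kk : SpecialLinearGroup (Fin 2) ℂ),
      aT p * emb (g * s * kk) = emb g * (aT p * emb s * emb kk) := fun p s kk => by
    rw [f0, ← mul_assoc, aT_comm, mul_assoc, mul_assoc]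
  unfold QQ
  rw [hx, hy, hz]
  simp only [f1]
  simp only [f0]
  rw [key _ _ _ _ _ _ _ _ _ _ u0 u0 u0 u1 u2, key _ _ _ _ _ _ _ _ _ _ u0 u0 u1 u1 u2,
    key _ _ _ _ _ _ _ _ _ _ u0 u0 u1 u2 u2, key _ _ _ _ _ _ _ _ _ _ u0 u1 u1 u1 u2,
    key _ _ _ _ _ _ _ _ _ _ u0 u1 u1 u2 u2, key _ _ _ _ _ _ _ _ _ _ u0 u1 u2 u2 u2]

/-- the mirror-odd part of the prism is additive -/
theorem prism_odd_add (c : (Fin 5 → G3) → ℝ) (hL : LInv c) (hd : ∀ x, dd c x = 0)
    (hU : ∀ x u : Fin 5 → G3, (∀ i, IsU (u i)) → c (fun i => x i * u i) = c x)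
    (t t' : ℝ) (s : Fin 4 → SpecialLinearGroup (Fin 2) ℂ) :
    Pr c (aT (t + t')) (fun i => emb (s i)) - Pr c (aT (t + t')) (fun i => emb (cj (s i)))
      = (Pr c (aT t) (fun i => emb (s i)) - Pr c (aT t) (fun i => emb (cj (s i))))
        + (Pr c (aT t') (fun i => emb (s i)) - Pr c (aT t') (fun i => emb (cj (s i)))) := by
  have hC := coc_CC hd
  have hL' : ∀ g x0 x1 x2 x3 x4, CC c (g * x0) (g * x1) (g * x2) (g * x3) (g * x4)
      = CC c x0 x1 x2 x3 x4 := by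
    intro g x0 x1 x2 x3 x4
    unfold CC
    have h1 := hL g ![x0, x1, x2, x3, x4]
    have e1 : (fun i => g * (![x0, x1, x2, x3, x4] : Fin 5 → G3) i)
        = ![g * x0, g * x1, g * x2, g * x3, g * x4] := by
      funext i; fin_cases i <;> rfl
    rw [e1] at h1
    exact h1
  simp only [Pr_eq]
  rw [aT_add, prism_add hC hL', prism_add hC hL', ← aT_add]
  rw [QQ_cj hL hU, QQ_cj hL hU, QQ_cj hL hU, QQ_cj hL hU]
  ring

end Pool.Agent.Helper22.EXP
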